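import Mathlib

namespace Pool.Agent.Results.MP_0a04b1_lc.No

/-- the multiplication graph of a group -/
def graph (G : Type) [Group G] : Set (G × G × G) := {t | t.1 * t.2.1 = t.2.2}

/-- isomorphic under decomposition -/
def IsoDec (G K : Type) [Group G] [Group K] : Prop :=
  ∃ (m : ℕ) (A : Fin m → Set (G × G × G)) (B : Fin m → Set (K × K × K)) (f : Fin m → G ≃ K),
    Pairwise (Function.onFun Disjoint A) ∧ Pairwise (Function.onFun Disjoint B) ∧
    ⋃ i, A i = graph G ∧ ⋃ i, B i = graph K ∧
    ∀ i, (fun t : G × G × G => (f i t.1, f i t.2.1, f i t.2.2)) '' A i = B i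

theorem no3 (t : unitInterval ≃ₜ unitInterval) (h : t * t * t = 1) : t = 1 := by
  have h' : ∀ x, t (t (t x)) = x := fun x => congrArg (fun s : unitInterval ≃ₜ unitInterval => s x) h
  rcases t.continuous.strictMono_of_inj t.injective with hm | hm
  · ext x
    congr 1
    rcases lt_trichotomy (t x) x with c | c | c
    · have := (hm (hm c)).trans ((hm c).trans c)
      rw [h'] at this
      exact absurd this (lt_irrefl _)
    · exact c
    · have := (c.trans (hm c)).trans (hm (hm c))
      rw [h'] at this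
      exact absurd this (lt_irrefl _)
  · have := hm (hm (hm (zero_lt_one' unitInterval)))
    rw [h', h'] at this
    exact absurd this (not_lt.2 zero_le_one)

theorem result : ¬ IsoDec (Equiv.Perm ℤ) (unitInterval ≃ₜ unitInterval) := by
  classical
  rintro ⟨m, A, B, f, -, -, hA, hB, hf⟩
  obtain ⟨ι, _, hι⟩ := Combinatorics.Line.exists_mono_in_high_dimension (ZMod 3 × ZMod 3) (Fin m)
  obtain ⟨e0, he0⟩ := exists_injective_nat (Multiplicative (ι → ZMod 3))
  let e : Multiplicative (ι → ZMod 3) ↪ ℤ := ⟨fun x => (e0 x : ℤ), Nat.cast_injective.comp he0⟩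
  let φ : Multiplicative (ι → ZMod 3) →* Equiv.Perm ℤ :=
    (Equiv.Perm.viaEmbeddingHom e).comp (MulAction.toPermHom _ _)
  have hφ : Function.Injective φ :=
    (Equiv.Perm.viaEmbeddingHom_injective e).comp MulAction.toPerm_injective
  let ψ : (ι → ZMod 3) → Equiv.Perm ℤ := fun x => φ (Multiplicative.ofAdd x)
  have key : ∀ v : ι → ZMod 3 × ZMod 3, ∃ i, (ψ fun k => (v k).1, ψ fun k => (v k).2,
      ψ fun k => (v k).1 + (v k).2) ∈ A i := by
    intro v
    rw [← Set.mem_iUnion, hA]
    exact (map_mul φ _ _).symm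
  choose C hC using key
  obtain ⟨l, c, hl⟩ := hι C
  let a : ZMod 3 → (unitInterval ≃ₜ unitInterval) := fun i => f c (ψ fun k => (l (i, 0) k).1)
  let b : ZMod 3 → (unitInterval ≃ₜ unitInterval) := fun j => f c (ψ fun k => (l (0, j) k).2)
  let d : ZMod 3 → (unitInterval ≃ₜ unitInterval) := fun i =>
    f c (ψ fun k => (l (i, 0) k).1 + (l (i, 0) k).2)
  have hab : ∀ i j, a i * b j = d (i + j) := by
    intro i j
    have h1 := hC (l (i, j))
    rw [hl] at h1
    have h2 := Set.mem_image_of_mem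
      (fun t : Equiv.Perm ℤ × Equiv.Perm ℤ × Equiv.Perm ℤ => (f c t.1, f c t.2.1, f c t.2.2)) h1
    rw [hf] at h2
    have h3 : _ ∈ graph _ := hB ▸ Set.mem_iUnion.2 ⟨c, h2⟩
    simp only [graph, Set.mem_ofPred_eq] at h3
    simp only [a, b, d]
    convert h3 using 4 <;> (try ext k) <;>
      simp only [Combinatorics.Line.coe_apply] <;> cases l.idxFun _ <;> simp
  have h1 : a 0 * b 1 = a 1 * b 0 := by rw [hab, hab]; rfl
  have h2 : a 1 * b 1 = a 2 * b 0 := by rw [hab, hab]; rfl
  have h3 : a 2 * b 1 = a 0 * b 0 := by rw [hab, hab]; rfl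
  have h4 : b 1 * (b 0)⁻¹ = 1 := by
    apply no3
    apply mul_left_cancel (a := a 0)
    simp only [← mul_assoc]
    rw [h1, mul_inv_cancel_right, h2, mul_inv_cancel_right, h3, mul_inv_cancel_right, mul_one]
  have h5 := hφ ((f c).injective (mul_inv_eq_one.1 h4))
  obtain ⟨k, hk⟩ := l.proper
  have h6 := congrFun (Multiplicative.ofAdd.injective h5) k
  simp [Combinatorics.Line.coe_apply, hk] at h6

end Pool.Agent.Results.MP_0a04b1_lc.No
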